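import Pool.Agent.P.MP_379466_co.Local
import Pool.Agent.P.MP_379466_co.Smooth

set_option autoImplicit false

namespace Pool.Agent.Results.MP_379466_co.Escape

open Pool.Agent.P.MP_379466_co

theorem result {n : ℕ} (K : Fin n → Set ℂ) (hK : ∀ i, SmoothBody (K i))
    (hd : ∀ i j, i ≠ j → Disjoint (K i) (K j)) (p : ℂ) (hp : ∀ i, p ∉ K i) :
    ∃ u : ℂ, ‖u‖ = 1 ∧ Escapes K p u := by
  choose b hb using fun i => exists_body (hK i)
  obtain rfl : K = fun i => (b i).K := funext fun i => (hb i).symm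
  obtain ⟨T, rfl⟩ := exists_table b hd
  obtain ⟨T, rfl⟩ := exists_tab T
  exact T.escape hp

end Pool.Agent.Results.MP_379466_co.Escape
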